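import Mathlib
import Pool.Agent.V11309.Uni.LevelC

/-!
# MP_2c7009_nt, Q1: level sets of de Vries–Komornik numbers below the tribonacci number

For every de Vries–Komornik number `q < Q₃` (and for `q = q_KL`) the level set `L(q)` is
uncountable and has uncountably many (two-sided) accumulation points.
-/

namespace Pool.Agent.Results.MP_2c7009_nt.Accumulation

/-- `d` is a `q`-expansion of `x`: digits in `{0,1}` (`Fin 2`), `x = ∑_{i≥1} d_i q^{-i}` (the
digit `d_i` of the text is `d (i-1)`). -/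
def IsExpansion (q x : ℝ) (d : ℕ → Fin 2) : Prop :=
  HasSum (fun i : ℕ => (((d i : Fin 2) : ℕ) : ℝ) / q ^ (i + 1)) x

/-- The set `𝒰(x)` of bases `q ∈ (1, q_x]`, `q_x = min {2, 1 + 1/x}`, in which `x` has exactly one
`q`-expansion. -/
def univoqueBases (x : ℝ) : Set ℝ :=
  {q | 1 < q ∧ q ≤ min 2 (1 + 1 / x) ∧ ∃! d : ℕ → Fin 2, IsExpansion q x d}

/-- The smallest univoque base `q_s(x) = inf 𝒰(x)`. -/
noncomputable def qs (x : ℝ) : ℝ := sInf (univoqueBases x)

/-- The level set `L(q) = {x > 0 : q_s(x) = q}`. -/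
def levelSet (q : ℝ) : Set ℝ := {x | 0 < x ∧ qs x = q}

/-- `q` is the right endpoint of a gap `(p, q)` of the closure of the set of univoque bases.  The
de Vries–Komornik numbers (right endpoints of the intervals `(q₀, q₀*)` of `(1,2] \ closure 𝒰`)
and `q_KL` (right endpoint of `(1, q_KL)`) are of this kind. -/
def IsRightEndpoint (q : ℝ) : Prop :=
  q ∈ closure (univoqueBases 1) ∧ ∃ p : ℝ, p < q ∧ Set.Ioo p q ∩ closure (univoqueBases 1) = ∅

/-- `y` is an accumulation point of `A`: each neighbourhood contains infinitely many points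
of `A`. -/
def IsAcc (A : Set ℝ) (y : ℝ) : Prop := ∀ U ∈ nhds y, (U ∩ A).Infinite

/-- The de Vries–Komornik numbers, literally as in the text: right endpoints `q₀*` of intervals
`(q₀, q₀*)` contained in the complement of the closure of `𝒰`, with `q₀ ∈ closure 𝒰 \ 𝒰` and
`q₀* ∈ 𝒰`. -/
def IsDVK (q : ℝ) : Prop :=
  q ∈ univoqueBases 1 ∧ ∃ q₀ : ℝ, q₀ ∈ closure (univoqueBases 1) \ univoqueBases 1 ∧ q₀ < q ∧
    Set.Ioo q₀ q ∩ closure (univoqueBases 1) = ∅

/-- Q1 holds: for every de Vries–Komornik number `q` smaller than the positive root `Q₃` of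
`q⁻¹ + q⁻² + q⁻³ = 1`, the level set `L(q)` has infinitely many, in fact uncountably many,
accumulation points, and it is uncountable.  The same holds for every right endpoint `q < Q₃` of a
gap of the closure of `𝒰`, `q_KL` included. -/
theorem result (Q₃ : ℝ) (h0 : 0 < Q₃) (h3 : Q₃⁻¹ + (Q₃ ^ 2)⁻¹ + (Q₃ ^ 3)⁻¹ = 1) :
    (∀ q : ℝ, IsDVK q → q < Q₃ → {y : ℝ | IsAcc (levelSet q) y}.Infinite) ∧
    (∀ q : ℝ, (IsDVK q ∨ IsRightEndpoint q) → q < Q₃ →
      ¬ (levelSet q).Countable ∧ ¬ {y : ℝ | y ∈ levelSet q ∧ IsAcc (levelSet q) y}.Countable) := by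
  have hQ : Q₃ < 1.84 := by
    by_contra hcon
    push Not at hcon
    norm_num at hcon
    have e1 : Q₃⁻¹ ≤ (46 / 25 : ℝ)⁻¹ := by gcongr
    have e2 : (Q₃ ^ 2)⁻¹ ≤ ((46 / 25 : ℝ) ^ 2)⁻¹ := by gcongr
    have e3 : (Q₃ ^ 3)⁻¹ ≤ ((46 / 25 : ℝ) ^ 3)⁻¹ := by gcongr
    norm_num at e1 e2 e3
    linarith
  norm_num at hQ
  have hUx : ∀ x : ℝ, 0 < x → univoqueBases x = V11309.Uni.Ux x := by
    intro x hx
    ext q
    constructor
    · rintro ⟨h1, h2, h3⟩
      exact ⟨h1, le_trans h2 (min_le_left _ _), h3⟩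
    · rintro ⟨h1, h2, h3⟩
      refine ⟨h1, le_min h2 ?_, h3⟩
      obtain ⟨d, hd, _⟩ := id h3
      have := V11309.Uni.isExp_le h1 hd
      have hq1 : 0 < q - 1 := by linarith
      rw [le_div_iff₀ hq1] at this
      have h4 : q - 1 ≤ 1 / x := by rw [le_div_iff₀ hx]; linarith
      linarith
  have hlev : ∀ q, levelSet q = V11309.Uni.Linf q := by
    intro q
    ext x
    constructor
    · rintro ⟨h1, h2⟩
      refine ⟨h1, ?_⟩
      rw [← hUx x h1]; exact h2
    · rintro ⟨h1, h2⟩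
      refine ⟨h1, ?_⟩
      unfold qs
      rw [hUx x h1]; exact h2
  have hU1 := hUx 1 one_pos
  have key : ∀ q : ℝ, (IsDVK q ∨ IsRightEndpoint q) → q < Q₃ →
      ¬ (levelSet q).Countable ∧ ¬ {y : ℝ | y ∈ levelSet q ∧ IsAcc (levelSet q) y}.Countable := by
    intro q hq hqQ
    have hiso : ∃ p, p < q ∧ ∀ r ∈ V11309.Uni.Ux 1, p < r → q ≤ r := by
      have : ∃ p : ℝ, p < q ∧ Set.Ioo p q ∩ closure (univoqueBases 1) = ∅ := by
        rcases hq with ⟨_, p, _, h1, h2⟩ | ⟨_, p, h1, h2⟩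
        · exact ⟨p, h1, h2⟩
        · exact ⟨p, h1, h2⟩
      obtain ⟨p, h1, h2⟩ := this
      refine ⟨p, h1, fun r hr hpr => ?_⟩
      by_contra hcon
      push Not at hcon
      have : r ∈ Set.Ioo p q ∩ closure (univoqueBases 1) :=
        ⟨⟨hpr, hcon⟩, subset_closure (by rw [hU1]; exact hr)⟩
      rw [h2] at this
      exact this
    obtain ⟨p, hpq, hiso⟩ := hiso
    have hmem : q ∈ V11309.Uni.Ux 1 := by
      rcases hq with ⟨h1, _⟩ | ⟨h1, _⟩
      · rw [← hU1]; exact h1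
      · rw [hU1] at h1
        exact V11309.Uni.mem_Ux_of_closure (by linarith) h1 hpq hiso
    have hL := V11309.Uni.Lmin_uncountable_of_isolated hmem (by norm_num; linarith) hpq hiso
    have hc : ¬ (levelSet q).Countable := by
      rw [hlev]
      exact fun h => hL (h.mono (V11309.Uni.Lmin_sub_Linf _))
    refine ⟨hc, fun h => V11309.Uni.uncountable_twoSided hc (h.mono ?_)⟩
    rintro y ⟨hy1, hy2⟩
    refine ⟨hy1, ?_⟩
    intro U hU
    -- infinitely many points in every neighbourhood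
    intro hfin
    have hF : ((U ∩ levelSet q) \ {y}).Finite := hfin.subset Set.sdiff_subset
    have hnb : U ∩ ((U ∩ levelSet q) \ {y})ᶜ ∈ nhds y :=
      Filter.inter_mem hU (hF.isClosed.isOpen_compl.mem_nhds (by simp))
    obtain ⟨ε, hε, hball⟩ := Metric.mem_nhds_iff.mp hnb
    obtain ⟨z, hz1, hz2, hz3⟩ := (hy2 ε hε).2
    have hzb : z ∈ Metric.ball y ε := by
      rw [Metric.mem_ball, Real.dist_eq, abs_lt]
      constructor <;> linarith
    obtain ⟨hzU, hzF⟩ := hball hzb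
    exact hzF ⟨⟨hzU, hz1⟩, ne_of_gt hz2⟩
  refine ⟨fun q hq hqQ => ?_, key⟩
  have h1 := (key q (Or.inl hq) hqQ).2
  intro hfin
  apply h1
  exact (hfin.subset (fun y hy => hy.2)).countable

end Pool.Agent.Results.MP_2c7009_nt.Accumulation
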